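import Mathlib

set_option autoImplicit false
open Real Set

namespace Pool.Agent.Results.MP_174dab_an.Chord

/-- `g_n(x) = ∑_{k=1}^n sin(2πkx)` -/
noncomputable def g (n : ℕ) (x : ℝ) : ℝ := ∑ k ∈ Finset.Icc 1 n, sin (2 * π * k * x)

/-- lengths of horizontal chords of `f` on `[0,1]` -/
def H (f : ℝ → ℝ) : Set ℝ := {l | l ∈ Icc (0 : ℝ) 1 ∧ ∃ x ∈ Icc l 1, f (x - l) = f x}

/-- `V_n = ⋃_{k=1}^n (k/(n+1), k/n)` -/
def V (n : ℕ) : Set ℝ := ⋃ k ∈ Finset.Icc 1 n, Ioo ((k : ℝ) / (n + 1)) ((k : ℝ) / n)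

lemma closed (n : ℕ) (x : ℝ) :
    2 * sin (π * x) * g n x = cos (π * x) - cos ((2 * n + 1) * (π * x)) := by
  induction n with
  | zero => simp [g]
  | succ n ih =>
    rw [g, Finset.sum_Icc_succ_top (by omega), ← g, mul_add, ih]
    push_cast
    rw [show (2 * (n + 1) + 1) * (π * x) = 2 * π * (n + 1) * x + π * x by ring,
      show (2 * n + 1) * (π * x) = 2 * π * (n + 1) * x - π * x by ring, cos_add, cos_sub]
    ring

lemma closed' (n : ℕ) (x : ℝ) :
    sin (π * x) * g n x = sin (n * (π * x)) * sin ((n + 1) * (π * x)) := by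
  have := closed n x
  rw [cos_sub_cos, show (π * x + (2 * n + 1) * (π * x)) / 2 = (n + 1) * (π * x) by ring,
    show (π * x - (2 * n + 1) * (π * x)) / 2 = -(n * (π * x)) by ring, sin_neg] at this
  linarith

lemma g_zero (n : ℕ) : g n 0 = 0 := by simp [g]

lemma g_symm (n : ℕ) (x : ℝ) : g n (1 - x) = -g n x := by
  rw [g, g, ← Finset.sum_neg_distrib]
  refine Finset.sum_congr rfl fun k _ => ?_
  rw [show 2 * π * k * (1 - x) = -(2 * π * k * x) + k * (2 * π) by ring, sin_add_nat_mul_two_pi,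
    sin_neg]

lemma sin_pos' {x : ℝ} (h0 : 0 < x) (h1 : x < 1) : 0 < sin (π * x) :=
  sin_pos_of_pos_of_lt_pi (by positivity) (by nlinarith [pi_pos])

lemma alg {S C sd cd sm cm sp cp : ℝ} (hS : 0 < S) (hC : 0 < C) (h1 : S ^ 2 + C ^ 2 = 1)
    (h2 : sd ^ 2 + cd ^ 2 = 1) (h3 : sm ^ 2 + cm ^ 2 = 1) (h4 : sp ^ 2 + cp ^ 2 = 1)
    (hd : sd ^ 2 < S ^ 2) (hm : S ^ 2 < sm ^ 2) :
    cp * (cd * cm * S) + sp * (sd * sm * C) < S * C := by
  have e1 : (cd * cm * S) ^ 2 + (sd * sm * C) ^ 2 < (S * C) ^ 2 := by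
    have a : cd ^ 2 = 1 - sd ^ 2 := by linarith
    have b : cm ^ 2 = 1 - sm ^ 2 := by linarith
    have c : C ^ 2 = 1 - S ^ 2 := by linarith
    simp only [mul_pow, a, b, c]
    nlinarith [mul_pos (sub_pos.2 hd) (sub_pos.2 hm)]
  refine lt_of_le_of_lt (le_abs_self _) (abs_lt_of_sq_lt_sq ?_ (by positivity))
  nlinarith [sq_nonneg (cp * (sd * sm * C) - sp * (cd * cm * S))]

lemma sq_lt {a b : ℝ} (h0 : |a| < b) (h1 : b ≤ π / 2) : sin a ^ 2 < sin b ^ 2 := by
  have ha := abs_nonneg a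
  have h2 : sin |a| < sin b := sin_lt_sin_of_lt_of_le_pi_div_two (by linarith) h1 h0
  have h3 : 0 ≤ sin |a| := sin_nonneg_of_nonneg_of_le_pi ha (by linarith [pi_pos])
  have h4 : sin |a| ^ 2 = sin a ^ 2 := by
    rcases abs_cases a with h | h <;> rw [h.1]
    simp
  nlinarith

lemma core (n : ℕ) (hn : 1 ≤ n) {l x : ℝ} (h1 : 1 / (n + 1) < l) (h2 : l < 1 / n) (hx : 0 ≤ x)
    (hx' : x + l ≤ 1) : g n (x + l) < g n x := by
  have hn' : (1 : ℝ) ≤ n := by exact_mod_cast hn
  rw [div_lt_iff₀ (by linarith)] at h1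
  rw [lt_div_iff₀ (by linarith)] at h2
  have hl0 : 0 < l := by nlinarith
  have hl1 : l < 1 := by nlinarith
  have hpi := pi_pos
  have hg : g n l < 0 := by
    have a := closed' n l
    have b : 0 < sin (n * (π * l)) := sin_pos_of_pos_of_lt_pi (by positivity) (by nlinarith)
    have c : sin ((n + 1) * (π * l)) < 0 := by
      rw [← sin_sub_two_pi]
      exact sin_neg_of_neg_of_neg_pi_lt (by nlinarith) (by nlinarith)
    have d := sin_pos' hl0 hl1
    by_contra hc
    nlinarith [mul_nonneg d.le (not_lt.1 hc), mul_pos b (neg_pos.2 c)]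
  rcases hx.eq_or_lt with rfl | hx
  · rwa [zero_add, g_zero]
  rcases hx'.eq_or_lt with he | hx'
  · rw [he, show x = 1 - l by linarith, g_symm, ← sub_zero (1 : ℝ), g_symm, g_zero]; linarith
  have sa := sin_pos' hx (by linarith)
  have sb := sin_pos' (show 0 < x + l by linarith) hx'
  have ca := closed n x
  have cb := closed n (x + l)
  set h := π * l / 2 with hh
  set m := π * x + h with hm
  set δ := ((2 * n + 1) * (π * l) - 2 * π) / 2 with hδ
  set ψ := (2 * n + 1) * (π * x) + δ with hψ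
  have ea : π * x = m - h := by ring
  have eb : π * (x + l) = m + h := by rw [hm, hh]; ring
  have e1 : cos ((2 * n + 1) * (π * x)) = cos (ψ - δ) := by congr 1; ring
  have e2 : cos ((2 * n + 1) * (π * (x + l))) = cos (ψ + δ) := by
    rw [← cos_add_two_pi (ψ + δ)]; congr 1; rw [hψ, hδ]; ring
  rw [e1] at ca; rw [e2] at cb
  rw [ea] at ca sa; rw [eb] at cb sb
  have hh0 : 0 < h := by positivity
  have hh1 : h < π / 2 := by nlinarith
  have k := alg (sin_pos_of_pos_of_lt_pi hh0 (by linarith)) (cos_pos_of_mem_Ioo ⟨by linarith, hh1⟩)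
    (sin_sq_add_cos_sq h) (sin_sq_add_cos_sq δ) (sin_sq_add_cos_sq m) (sin_sq_add_cos_sq ψ)
    (sq_lt (abs_lt.2 ⟨by nlinarith, by nlinarith⟩) hh1.le) (by
      have := mul_pos sa sb
      rw [sin_sub, sin_add m h] at this
      nlinarith [sin_sq_add_cos_sq h, sin_sq_add_cos_sq m])
  have : 2 * (sin (m - h) * sin (m + h)) * (g n (x + l) - g n x) < 0 := by
    have e : 2 * (sin (m - h) * sin (m + h)) * (g n (x + l) - g n x) =
        sin (m - h) * (cos (m + h) - cos (ψ + δ)) - sin (m + h) * (cos (m - h) - cos (ψ - δ)) := by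
      rw [← ca, ← cb]; ring
    rw [e]
    rw [sin_sub m h, sin_add m h, cos_sub m h, cos_add m h, cos_sub ψ δ, cos_add ψ δ]
    linear_combination 2 * k - 2 * (sin h * cos h) * sin_sq_add_cos_sq m
  by_contra hc
  nlinarith [mul_pos sa sb, not_lt.1 hc]

lemma chain (n : ℕ) (hn : 1 ≤ n) {l : ℝ} (h1 : 1 / (n + 1) < l) (h2 : l < 1 / n) (k : ℕ) {x : ℝ}
    (hx : 0 ≤ x) (hx' : x + (k + 1) * l ≤ 1) : g n (x + (k + 1) * l) < g n x := by
  have hl : 0 < l := lt_trans (by positivity) h1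
  induction k with
  | zero => simpa using core n hn h1 h2 hx (by simpa using hx')
  | succ k ih =>
    push_cast at hx' ⊢
    have := core n hn h1 h2 (x := x + (k + 1) * l) (by positivity) (by linarith)
    rw [show x + (k + 1 + 1) * l = x + (k + 1) * l + l by ring]
    exact this.trans (ih (by nlinarith))

lemma exists_chord (n : ℕ) (hn : 1 ≤ n) {l : ℝ} (h0 : 0 < l) (h1 : l ≤ n / (n + 1))
    (hg : 0 ≤ g n l) : ∃ x ∈ Icc l 1, g n (x - l) = g n x := by
  have hn' : (1 : ℝ) ≤ n := by exact_mod_cast hn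
  set a : ℝ := 1 / (2 * n + 1) with ha
  have ha0 : 0 < a := by positivity
  have hal : a + l < 1 := by
    have : a < 1 / (n + 1) := one_div_lt_one_div_of_lt (by positivity) (by linarith)
    have e : (1 : ℝ) / (n + 1) + n / (n + 1) = 1 := by field_simp; ring
    linarith
  have hle : g n (a + l) ≤ g n a := by
    have sa := sin_pos' ha0 (by linarith)
    have sb := sin_pos' (show 0 < a + l by linarith) hal
    have ca := closed n a
    have cb := closed n (a + l)
    rw [show (2 * n + 1) * (π * a) = π by rw [ha]; field_simp, cos_pi] at ca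
    have c1 := neg_one_le_cos ((2 * n + 1) * (π * (a + l)))
    have hpi := pi_pos
    have k : sin (π * a) * (cos (π * (a + l)) + 1) ≤ sin (π * (a + l)) * (cos (π * a) + 1) := by
      have s1 : 0 ≤ sin (π * (a + l) / 2 - π * a / 2) :=
        sin_nonneg_of_nonneg_of_le_pi (by nlinarith) (by nlinarith)
      have s2 : 0 ≤ cos (π * a / 2) := cos_nonneg_of_mem_Icc ⟨by nlinarith, by nlinarith⟩
      have s3 : 0 ≤ cos (π * (a + l) / 2) := cos_nonneg_of_mem_Icc ⟨by nlinarith, by nlinarith⟩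
      have t := mul_nonneg (mul_nonneg s2 s3) s1
      rw [sin_sub] at t
      have d1 := sin_two_mul (π * a / 2)
      have d2 := cos_two_mul (π * a / 2)
      have d3 := sin_two_mul (π * (a + l) / 2)
      have d4 := cos_two_mul (π * (a + l) / 2)
      rw [mul_div_cancel₀ _ two_ne_zero] at d1 d2 d3 d4
      rw [d1, d2, d3, d4]
      nlinarith
    by_contra hc
    nlinarith [mul_pos (mul_pos sa sb) (sub_pos.2 (not_le.1 hc)), mul_nonneg sa.le
      (show 0 ≤ cos ((2 * n + 1) * (π * (a + l))) + 1 by linarith)]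
  have hc : ContinuousOn (fun y => g n (y + l) - g n y) (Icc 0 a) := by unfold g; fun_prop
  obtain ⟨y, hy, e⟩ := intermediate_value_Icc' ha0.le hc
    (show (0 : ℝ) ∈ Icc _ _ from ⟨by linarith, by simpa [g_zero] using hg⟩)
  exact ⟨y + l, ⟨by linarith [hy.1], by linarith [hy.2]⟩, by rw [add_sub_cancel_right]; linarith⟩

theorem result (n : ℕ) (hn : 1 ≤ n) : H (g n) = Icc 0 1 \ V n := by
  have hn' : (1 : ℝ) ≤ n := by exact_mod_cast hn
  ext l
  simp only [H, V, mem_setOf_eq, mem_diff, mem_iUnion, Finset.mem_Icc, not_exists, mem_Ioo,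
    and_congr_right_iff]
  rintro ⟨l0, l1⟩
  constructor
  · rintro ⟨x, ⟨x0, x1⟩, e⟩ k ⟨k0, k1⟩ ⟨a, b⟩
    obtain ⟨j, rfl⟩ : ∃ j, k = j + 1 := ⟨k - 1, by omega⟩
    push_cast at a b
    have hj : (0 : ℝ) < j + 1 := by positivity
    have := chain n hn (l := l / (j + 1)) (by rw [lt_div_iff₀ hj]; rwa [one_div_mul_eq_div])
      (by rw [div_lt_iff₀ hj]; rwa [one_div_mul_eq_div]) j (x := x - l) (by linarith)
      (by rw [mul_div_cancel₀ _ hj.ne']; linarith)
    rw [mul_div_cancel₀ _ hj.ne', sub_add_cancel, e] at this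
    exact lt_irrefl _ this
  · intro h
    rcases l0.eq_or_lt with rfl | l0
    · exact ⟨0, by simp, by simp⟩
    rcases l1.eq_or_lt with rfl | l1
    · exact ⟨1, by simp, by rw [sub_self, ← sub_zero (1 : ℝ), g_symm, g_zero, neg_zero]⟩
    have hl : l ≤ n / (n + 1) := by
      by_contra hc
      exact h n ⟨hn, le_rfl⟩ ⟨not_le.1 hc, by rwa [div_self (by linarith)]⟩
    refine exists_chord n hn l0 hl ?_
    set j := ⌊n * l⌋₊ with hj
    have j1 : (j : ℝ) ≤ n * l := Nat.floor_le (by positivity)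
    have j2 : n * l < j + 1 := Nat.lt_floor_add_one _
    have j3 : j + 1 ≤ n := by
      have : (j : ℝ) < n := by nlinarith
      exact_mod_cast this
    have j4 : (n + 1) * l ≤ j + 1 := by
      by_contra hc
      refine h (j + 1) ⟨by omega, j3⟩ ⟨?_, ?_⟩ <;> push_cast
      · rw [div_lt_iff₀ (by linarith)]; linarith
      · rw [lt_div_iff₀ (by linarith)]; linarith
    have hpi := pi_pos
    have s1 : 0 ≤ sin (n * (π * l) - j * π) :=
      sin_nonneg_of_nonneg_of_le_pi (by nlinarith) (by nlinarith)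
    have s2 : 0 ≤ sin ((n + 1) * (π * l) - j * π) :=
      sin_nonneg_of_nonneg_of_le_pi (by nlinarith) (by nlinarith)
    have s3 := mul_nonneg s1 s2
    rw [sin_sub_nat_mul_pi, sin_sub_nat_mul_pi, mul_mul_mul_comm, ← mul_pow, neg_mul_neg, one_mul,
      one_pow, one_mul, ← closed'] at s3
    exact (mul_nonneg_iff_of_pos_left (sin_pos' l0 l1)).1 s3

end Pool.Agent.Results.MP_174dab_an.Chord
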